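import Pool.Agent.Helper88.TT.Defs

/-!
# Block SA-BS (part of RU-C1, MP_a64d16_an): the basis from the saddle point

Proof in words.  `N = gsum p t`, `S = (D + N)^-1`, `N' = D^(-1/2) N D^(-1/2)` (positive semidefinite; `D` diagonal positive).
`R = (1 + N')^(1/2)` (positive definite square root, commutes with `N'`), `y i` = column `i` of
`Y = (1/2) D^(1/2) R D^(-1/2)`, so `y i = (e_i + E e_i)/2`, `E = D^(1/2) (R - 1) D^(-1/2)`.
`T' = D^(-1/2) T`, `T = (sqrt (p b) t b)_b`, `N' = T' T'^T`, `h = (1 + R)^-1`, `R - 1 = N' h`: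
`E e_i = T c_i`, `c_i = D_i^(-1/2) T'^T h e_i`, `|c_i|^2 = D_i^(-1) (h N' h)_ii <= D_i^(-1) (N' (1+N')^(-1))_ii` (because
`(1 + sqrt (1+x))^2 >= 1 + x`) `= (1 - D_i S_ii)/D_i <= 1`; `T c_i = sum_b sqrt (p b) (c_i)_b t b` with
`sum_b sqrt (p b) |(c_i)_b| <= |c_i| <= 1` (Cauchy-Schwarz), so `E e_i in B` and `y i in B` (convex, symmetric).
For `z in B`: `c = Y^-1 z = 2 D^(1/2) R^-1 D^(-1/2) z`, `|D^(-1/2) c|^2 = 4 z^T S z <= 4 d`,
`sum |c_i| <= (sum D_i)^(1/2) |D^(-1/2) c| <= 2 sqrt ((sum D_i) d)`.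
Proved by helper7 (with the spectral decomposition of `N'`).
-/

namespace Pool.Agent.TT

open Matrix Module

/-- Spectral decomposition of a real positive semidefinite matrix. -/
private theorem bs_spec {n : ℕ} {N : Matrix (Fin n) (Fin n) ℝ} (hN : N.PosSemidef) :
    ∃ (W : Matrix (Fin n) (Fin n) ℝ) (l : Fin n → ℝ), Wᵀ * W = 1 ∧ W * Wᵀ = 1 ∧
      (∀ j, 0 ≤ l j) ∧ N = W * diagonal l * Wᵀ := by
  have hM := hN.isHermitian
  set v := hM.eigenvectorBasis with hv
  set μ := hM.eigenvalues with hμ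
  set W : Matrix (Fin n) (Fin n) ℝ := Matrix.of fun r j => v j r with hW
  have h1 : Wᵀ * W = 1 := by
    ext j k
    rw [Matrix.mul_apply, Matrix.one_apply]
    have h := orthonormal_iff_ite.mp v.orthonormal j k
    rw [← h, PiLp.inner_apply]
    refine Finset.sum_congr rfl fun i _ => ?_
    simp [hW, mul_comm]
  have h2 : W * Wᵀ = 1 := mul_eq_one_comm.mp h1
  have h3 : N * W = W * diagonal μ := by
    ext r j
    have h4 := hM.mulVec_eigenvectorBasis j
    have h5 := congrFun h4 r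
    rw [Matrix.mul_diagonal, Matrix.mul_apply]
    have h6 : (N *ᵥ (v j).ofLp) r = μ j * v j r := by
      rw [← hv, ← hμ] at h5
      rw [h5]
      rfl
    rw [mul_comm, hW, Matrix.of_apply, ← h6]
    rfl
  refine ⟨W, μ, h1, h2, fun j => hN.eigenvalues_nonneg j, ?_⟩
  rw [← h3, Matrix.mul_assoc, h2, Matrix.mul_one]

private theorem bs_mul {n : ℕ} {W : Matrix (Fin n) (Fin n) ℝ} (h : Wᵀ * W = 1)
    (f g : Fin n → ℝ) :
    W * diagonal f * Wᵀ * (W * diagonal g * Wᵀ) = W * diagonal (fun j => f j * g j) * Wᵀ := by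
  calc W * diagonal f * Wᵀ * (W * diagonal g * Wᵀ)
      = W * (diagonal f * (Wᵀ * W) * diagonal g) * Wᵀ := by simp only [Matrix.mul_assoc]
    _ = _ := by rw [h, Matrix.mul_one, Matrix.diagonal_mul_diagonal]

private theorem bs_diag {n : ℕ} (W : Matrix (Fin n) (Fin n) ℝ) (f : Fin n → ℝ) (i : Fin n) :
    (W * diagonal f * Wᵀ) i i = ∑ j, W i j ^ 2 * f j := by
  rw [Matrix.mul_apply]
  refine Finset.sum_congr rfl fun j _ => ?_
  rw [Matrix.mul_diagonal, Matrix.transpose_apply]
  ring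

private theorem bs_tr {n : ℕ} (W : Matrix (Fin n) (Fin n) ℝ) (f : Fin n → ℝ) :
    (W * diagonal f * Wᵀ)ᵀ = W * diagonal f * Wᵀ := by
  rw [Matrix.transpose_mul, Matrix.transpose_mul, Matrix.transpose_transpose,
    Matrix.diagonal_transpose, Matrix.mul_assoc]

/-- Absolutely convex combinations. -/
private theorem bs_mem {n : ℕ} {B : Set (Fin n → ℝ)} (hconv : Convex ℝ B)
    (hsymm : ∀ z ∈ B, -z ∈ B) (h0 : (0 : Fin n → ℝ) ∈ B) {κ : Type} [Fintype κ]
    (t : κ → Fin n → ℝ) (ht : ∀ b, t b ∈ B) (a : κ → ℝ) (ha : ∑ b, |a b| ≤ 1) :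
    ∑ b, a b • t b ∈ B := by
  have h1 : ∑ b, a b • t b = ∑ o : Option κ, (Option.elim o (1 - ∑ b, |a b|) fun b => |a b|) •
      (Option.elim o 0 fun b => if 0 ≤ a b then t b else -t b) := by
    rw [Fintype.sum_option]
    simp only [Option.elim, smul_zero, zero_add]
    refine Finset.sum_congr rfl fun b _ => ?_
    by_cases hb : 0 ≤ a b
    · rw [if_pos hb, abs_of_nonneg hb]
    · rw [if_neg hb, abs_of_neg (not_le.mp hb), neg_smul, smul_neg, neg_neg]
  rw [h1]
  refine hconv.sum_mem ?_ ?_ ?_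
  · rintro (_ | b) _
    · simpa using ha
    · exact abs_nonneg _
  · rw [Fintype.sum_option]
    simp
  · rintro (_ | b) _
    · exact h0
    · change (if 0 ≤ a b then t b else -t b) ∈ B
      by_cases hb : 0 ≤ a b
      · rw [if_pos hb]; exact ht b
      · rw [if_neg hb]; exact hsymm _ (ht b)

/-- The basis constructed from the matrix square root. -/
theorem basis_of_saddle {n : ℕ} {B : Set (Fin n → ℝ)} (hconv : Convex ℝ B)
    (hsymm : ∀ z ∈ B, -z ∈ B) (hsingle : ∀ i : Fin n, (Pi.single i 1 : Fin n → ℝ) ∈ B)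
    {κ : Type} [Fintype κ] (p : κ → ℝ) (hp : ∀ b, 0 ≤ p b) (hp1 : ∑ b, p b = 1)
    (t : κ → Fin n → ℝ) (ht : ∀ b, t b ∈ B) (D : Fin n → ℝ) (hD : ∀ i, 0 < D i) (d : ℝ)
    (h1 : ∀ z ∈ B, z ⬝ᵥ ((diagonal D + gsum p t)⁻¹ *ᵥ z) ≤ d)
    (h2 : ∀ i, 1 - D i * (diagonal D + gsum p t)⁻¹ i i ≤ D i) :
    ∃ y : Fin n → Fin n → ℝ, (∀ i, y i ∈ B) ∧
      ∀ z ∈ B, ∃ c : Fin n → ℝ, z = ∑ i, c i • y i ∧
        ∑ i, |c i| ≤ 2 * Real.sqrt ((∑ i, D i) * d) := by
  classical
  set δ : Fin n → ℝ := fun i => Real.sqrt (D i) with hδ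
  have hδ0 : ∀ i, 0 < δ i := fun i => Real.sqrt_pos.mpr (hD i)
  have hδδ : ∀ i, δ i * δ i = D i := fun i => Real.mul_self_sqrt (hD i).le
  set T : Matrix (Fin n) κ ℝ := Matrix.of fun r b => (δ r)⁻¹ * (Real.sqrt (p b) * t b r) with hT
  set N : Matrix (Fin n) (Fin n) ℝ := T * Tᵀ with hN
  have hNpsd : N.PosSemidef := by
    have := Matrix.posSemidef_self_mul_conjTranspose T
    rwa [Matrix.conjTranspose_eq_transpose_of_trivial] at this
  obtain ⟨W, l, hW1, hW2, hl, hNW⟩ := bs_spec hNpsd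
  set F : (Fin n → ℝ) → Matrix (Fin n) (Fin n) ℝ := fun f => W * diagonal f * Wᵀ with hF
  have hFmul : ∀ f g, F f * F g = F (fun j => f j * g j) := fun f g => bs_mul hW1 f g
  have hFdiag : ∀ f i, F f i i = ∑ j, W i j ^ 2 * f j := fun f i => bs_diag W f i
  have hFtr : ∀ f, (F f)ᵀ = F f := fun f => bs_tr W f
  have hF1 : F (fun _ => 1) = 1 := by
    simp only [hF]
    rw [Matrix.diagonal_one, Matrix.mul_one, hW2]
  have hFadd : ∀ f g, F f + F g = F (fun j => f j + g j) := by
    intro f g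
    simp only [hF]
    rw [← Matrix.add_mul, ← Matrix.mul_add, Matrix.diagonal_add]
  have hNF : N = F l := hNW
  -- gsum in terms of N
  have hg : ∀ r s, gsum p t r s = δ r * N r s * δ s := by
    intro r s
    have e1 : gsum p t r s = ∑ b, p b * (t b r * t b s) := by
      unfold gsum
      rw [Matrix.sum_apply]
      refine Finset.sum_congr rfl fun b _ => ?_
      rw [Matrix.smul_apply, Matrix.vecMulVec_apply, smul_eq_mul]
    rw [e1, hN, Matrix.mul_apply, Finset.mul_sum, Finset.sum_mul]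
    refine Finset.sum_congr rfl fun b _ => ?_
    simp only [hT, Matrix.of_apply, Matrix.transpose_apply]
    have h3 := (hδ0 r).ne'
    have h4 := (hδ0 s).ne'
    have h5 : Real.sqrt (p b) * Real.sqrt (p b) = p b := Real.mul_self_sqrt (hp b)
    calc p b * (t b r * t b s) = (Real.sqrt (p b) * Real.sqrt (p b)) * (t b r * t b s) := by
          rw [h5]
      _ = (δ r * (δ r)⁻¹) * ((δ s)⁻¹ * δ s) *
          ((Real.sqrt (p b) * Real.sqrt (p b)) * (t b r * t b s)) := by
          rw [mul_inv_cancel₀ h3, inv_mul_cancel₀ h4]; ring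
      _ = _ := by ring
  set q : Fin n → ℝ := fun j => (1 + l j)⁻¹ with hq
  have hlp : ∀ j, 0 < 1 + l j := fun j => by linarith [hl j]
  have hdD : diagonal D + gsum p t = diagonal δ * (1 + N) * diagonal δ := by
    ext r s
    rw [Matrix.mul_diagonal, Matrix.diagonal_mul, Matrix.add_apply, Matrix.add_apply, hg]
    by_cases hrs : r = s
    · subst hrs
      rw [Matrix.diagonal_apply_eq, Matrix.one_apply_eq, ← hδδ r]
      ring
    · rw [Matrix.diagonal_apply_ne _ hrs, Matrix.one_apply_ne hrs]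
      ring
  have hinv : (diagonal D + gsum p t)⁻¹ =
      diagonal (fun i => (δ i)⁻¹) * F q * diagonal (fun i => (δ i)⁻¹) := by
    refine Matrix.inv_eq_right_inv ?_
    have e1 : diagonal δ * diagonal (fun i => (δ i)⁻¹) = (1 : Matrix (Fin n) (Fin n) ℝ) := by
      rw [Matrix.diagonal_mul_diagonal, ← Matrix.diagonal_one]
      congr 1
      funext i
      exact mul_inv_cancel₀ (hδ0 i).ne'
    have e2 : (1 + N) * F q = 1 := by
      rw [hNF, ← hF1, hFadd, hFmul]
      congr 1
      funext j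
      simp only [hq]
      exact mul_inv_cancel₀ (hlp j).ne'
    rw [hdD]
    calc diagonal δ * (1 + N) * diagonal δ *
          (diagonal (fun i => (δ i)⁻¹) * F q * diagonal (fun i => (δ i)⁻¹))
        = diagonal δ * ((1 + N) * (diagonal δ * diagonal (fun i => (δ i)⁻¹)) * F q) *
          diagonal (fun i => (δ i)⁻¹) := by simp only [Matrix.mul_assoc]
      _ = 1 := by rw [e1, Matrix.mul_one, e2, Matrix.mul_one, e1]
  have hS : ∀ r s, (diagonal D + gsum p t)⁻¹ r s = (δ r)⁻¹ * F q r s * (δ s)⁻¹ := by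
    intro r s
    rw [hinv, Matrix.mul_diagonal, Matrix.diagonal_mul]
  -- the functions
  set ρ : Fin n → ℝ := fun j => Real.sqrt (1 + l j) with hρ
  have hρ0 : ∀ j, 0 < ρ j := fun j => Real.sqrt_pos.mpr (hlp j)
  have hρρ : ∀ j, ρ j * ρ j = 1 + l j := fun j => Real.mul_self_sqrt (hlp j).le
  set η : Fin n → ℝ := fun j => (1 + ρ j)⁻¹ with hη
  have hRe : F ρ = 1 + N * F η := by
    rw [hNF, hFmul, ← hF1, hFadd]
    congr 1
    funext j
    simp only [hη]
    have h3 : (1 + ρ j) ≠ 0 := by linarith [hρ0 j]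
    field_simp
    nlinarith [hρρ j]
  -- the vectors
  refine ⟨fun i r => 1 / 2 * (δ r * F ρ r i * (δ i)⁻¹), fun i => ?_, fun z hz => ?_⟩
  · set c : κ → ℝ := fun b => (δ i)⁻¹ * (Tᵀ * F η) b i with hc
    have hc2 : ∑ b, c b ^ 2 ≤ 1 := by
      have e1 : ∑ b, c b ^ 2 = (D i)⁻¹ * (F η * N * F η) i i := by
        have e2 : F η * N * F η = (Tᵀ * F η)ᵀ * (Tᵀ * F η) := by
          rw [Matrix.transpose_mul, Matrix.transpose_transpose, hFtr, hN]
          simp only [Matrix.mul_assoc]
        rw [e2, Matrix.mul_apply, Finset.mul_sum]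
        refine Finset.sum_congr rfl fun b _ => ?_
        rw [Matrix.transpose_apply, ← hδδ i, mul_inv]
        simp only [hc]
        ring
      have e3 : (F η * N * F η) i i ≤ D i := by
        rw [hNF, hFmul, hFmul, hFdiag]
        have e4 : ∑ j, W i j ^ 2 * (η j * l j * η j) ≤ ∑ j, W i j ^ 2 * (1 - q j) := by
          refine Finset.sum_le_sum fun j _ => ?_
          refine mul_le_mul_of_nonneg_left ?_ (sq_nonneg _)
          have h3 : 0 < 1 + ρ j := by linarith [hρ0 j]
          have h4 : 1 - q j = l j * (1 + l j)⁻¹ := by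
            simp only [hq]
            have := (hlp j).ne'
            field_simp
            ring
          rw [h4]
          have h5 : η j * l j * η j = l j * ((1 + ρ j) * (1 + ρ j))⁻¹ := by
            simp only [hη]
            rw [mul_inv]
            ring
          rw [h5]
          refine mul_le_mul_of_nonneg_left ?_ (hl j)
          refine inv_anti₀ (hlp j) ?_
          nlinarith [hρρ j, hρ0 j]
        have e5 : ∑ j, W i j ^ 2 * (1 - q j) = 1 - F q i i := by
          rw [hFdiag]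
          have e6 : ∑ j, W i j ^ 2 * (1 : ℝ) = 1 := by
            have := hFdiag (fun _ => 1) i
            rw [hF1, Matrix.one_apply_eq] at this
            exact this.symm
          have e9 : ∑ j, W i j ^ 2 * (1 - q j) =
              ∑ j, W i j ^ 2 * (1 : ℝ) - ∑ j, W i j ^ 2 * q j := by
            rw [← Finset.sum_sub_distrib]
            exact Finset.sum_congr rfl fun j _ => mul_sub _ _ _
          rw [e9, e6]
        have e7 : D i * (diagonal D + gsum p t)⁻¹ i i = F q i i := by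
          rw [hS, ← hδδ i]
          have := (hδ0 i).ne'
          field_simp
        have e8 := h2 i
        rw [e7] at e8
        linarith
      rw [e1]
      rw [inv_mul_le_iff₀ (hD i), mul_one]
      exact e3
    have hsum : ∑ b, |Real.sqrt (p b) * c b| ≤ 1 := by
      have e1 : (∑ b, Real.sqrt (p b) * |c b|) ^ 2 ≤
          (∑ b, Real.sqrt (p b) ^ 2) * ∑ b, |c b| ^ 2 :=
        Finset.sum_mul_sq_le_sq_mul_sq _ _ _
      have e2 : ∑ b, Real.sqrt (p b) ^ 2 = 1 := by
        rw [← hp1]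
        exact Finset.sum_congr rfl fun b _ => Real.sq_sqrt (hp b)
      have e3 : ∑ b, |c b| ^ 2 ≤ 1 := by
        simpa only [sq_abs] using hc2
      rw [e2, one_mul] at e1
      have e4 : ∑ b, |Real.sqrt (p b) * c b| = ∑ b, Real.sqrt (p b) * |c b| := by
        refine Finset.sum_congr rfl fun b _ => ?_
        rw [abs_mul, abs_of_nonneg (Real.sqrt_nonneg _)]
      rw [e4]
      have e5 : 0 ≤ ∑ b, Real.sqrt (p b) * |c b| :=
        Finset.sum_nonneg fun b _ => mul_nonneg (Real.sqrt_nonneg _) (abs_nonneg _)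
      nlinarith
    have h0 : (0 : Fin n → ℝ) ∈ B := by
      have := hconv (hsingle i) (hsymm _ (hsingle i)) (by norm_num : (0 : ℝ) ≤ 1 / 2)
        (by norm_num : (0 : ℝ) ≤ 1 / 2) (by norm_num)
      simpa using this
    have hE := bs_mem hconv hsymm h0 t ht (fun b => Real.sqrt (p b) * c b) hsum
    have hy : (fun r => 1 / 2 * (δ r * F ρ r i * (δ i)⁻¹)) =
        (1 / 2 : ℝ) • (Pi.single i 1 : Fin n → ℝ) +
          (1 / 2 : ℝ) • ∑ b, (Real.sqrt (p b) * c b) • t b := by
      funext r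
      simp only [Pi.add_apply, Pi.smul_apply, Finset.sum_apply, smul_eq_mul]
      rw [← mul_add]
      congr 1
      rw [hRe, Matrix.add_apply]
      have e1 : (N * F η) r i = ∑ b, T r b * (Tᵀ * F η) b i := by
        rw [hN, Matrix.mul_assoc, Matrix.mul_apply]
      have e2 : δ r * (N * F η) r i * (δ i)⁻¹ = ∑ b, Real.sqrt (p b) * c b * t b r := by
        rw [e1, Finset.mul_sum, Finset.sum_mul]
        refine Finset.sum_congr rfl fun b _ => ?_
        simp only [hc]
        have e3 : δ r * T r b = Real.sqrt (p b) * t b r := by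
          simp only [hT, Matrix.of_apply]
          rw [← mul_assoc, mul_inv_cancel₀ (hδ0 r).ne', one_mul]
        calc δ r * (T r b * (Tᵀ * F η) b i) * (δ i)⁻¹
            = (δ r * T r b) * (Tᵀ * F η) b i * (δ i)⁻¹ := by ring
          _ = _ := by rw [e3]; ring
      rw [mul_add, add_mul, e2]
      congr 1
      by_cases hri : r = i
      · subst hri
        rw [Matrix.one_apply_eq, Pi.single_eq_same, mul_one, mul_inv_cancel₀ (hδ0 r).ne']
      · rw [Matrix.one_apply_ne hri, Pi.single_eq_of_ne hri]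
        ring
    change (fun r => 1 / 2 * (δ r * F ρ r i * (δ i)⁻¹)) ∈ B
    rw [hy]
    exact hconv (hsingle i) hE (by norm_num) (by norm_num) (by norm_num)
  · set u : Fin n → ℝ := fun r => (δ r)⁻¹ * z r with hu
    set ρi : Fin n → ℝ := fun j => (ρ j)⁻¹ with hρi
    set x : Fin n → ℝ := F ρi *ᵥ u with hx
    refine ⟨fun i => 2 * (δ i * x i), ?_, ?_⟩
    · have e1 : F ρ *ᵥ x = u := by
        rw [hx, Matrix.mulVec_mulVec, hFmul]
        have e2 : F (fun j => ρ j * ρi j) = 1 := by
          rw [← hF1]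
          congr 1
          funext j
          exact mul_inv_cancel₀ (hρ0 j).ne'
        rw [e2, Matrix.one_mulVec]
      funext s
      simp only [Finset.sum_apply, Pi.smul_apply, smul_eq_mul]
      have e3 : ∑ i, 2 * (δ i * x i) * (1 / 2 * (δ s * F ρ s i * (δ i)⁻¹)) =
          δ s * (F ρ *ᵥ x) s := by
        rw [Matrix.mulVec, dotProduct, Finset.mul_sum]
        refine Finset.sum_congr rfl fun i _ => ?_
        have := (hδ0 i).ne'
        field_simp
      rw [e3, e1]
      simp only [hu]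
      rw [← mul_assoc, mul_inv_cancel₀ (hδ0 s).ne', one_mul]
    · have e1 : ∑ i, x i ^ 2 ≤ d := by
        have e2 : ∑ i, x i ^ 2 = u ⬝ᵥ (F q *ᵥ u) := by
          have e3 : F q = (F ρi)ᵀ * F ρi := by
            rw [hFtr, hFmul]
            congr 1
            funext j
            simp only [hq, hρi]
            rw [← mul_inv, hρρ]
          rw [e3, ← Matrix.mulVec_mulVec, Matrix.dotProduct_mulVec, Matrix.vecMul_transpose,
            ← hx]
          rw [dotProduct]
          exact Finset.sum_congr rfl fun i _ => by ring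
        have e4 : u ⬝ᵥ (F q *ᵥ u) = z ⬝ᵥ ((diagonal D + gsum p t)⁻¹ *ᵥ z) := by
          simp only [dotProduct, Matrix.mulVec, Finset.mul_sum]
          refine Finset.sum_congr rfl fun r _ => Finset.sum_congr rfl fun s _ => ?_
          rw [hS]
          simp only [hu]
          ring
        rw [e2, e4]
        exact h1 z hz
      have e5 : (∑ i, δ i * |x i|) ^ 2 ≤ (∑ i, δ i ^ 2) * ∑ i, |x i| ^ 2 :=
        Finset.sum_mul_sq_le_sq_mul_sq _ _ _
      have e6 : ∑ i, δ i ^ 2 = ∑ i, D i :=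
        Finset.sum_congr rfl fun i _ => by rw [sq, hδδ]
      have e7 : ∑ i, |x i| ^ 2 = ∑ i, x i ^ 2 :=
        Finset.sum_congr rfl fun i _ => sq_abs _
      rw [e6, e7] at e5
      have e8 : ∑ i, |2 * (δ i * x i)| = 2 * ∑ i, δ i * |x i| := by
        rw [Finset.mul_sum]
        refine Finset.sum_congr rfl fun i _ => ?_
        rw [abs_mul, abs_mul, abs_of_pos (hδ0 i)]
        norm_num
      rw [e8]
      refine mul_le_mul_of_nonneg_left ?_ (by norm_num)
      refine Real.le_sqrt_of_sq_le (e5.trans ?_)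
      exact mul_le_mul_of_nonneg_left e1 (Finset.sum_nonneg fun i _ => (hD i).le)

end Pool.Agent.TT
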