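import Pool.Agent.Helper88.TT.Defs

/-!
# Block SA-CX (part of RU-C1, MP_a64d16_an): convexity of `log det (diag (exp u) + N)`

Proof in words.
* `det_diagonal_add`: expand in the rows (`Matrix.detRowAlternating.map_add_univ`, as in the proof of
  `Matrix.coeff_det_one_add_X_smul_eq_sum_minors` / `det_piecewise_one_eq_submatrix_det` in Mathlib): row `i` of the
  matrix is `D i e_i + N i`; choose for every row one of the two summands; for the set `A` of the rows `N i` the
  determinant is `prod_{i not in A} D i` times the principal minor of `N` at `A`.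
* `convexOn_log_det`: with `c A = det (N_AA) >= 0` (principal submatrices of a positive semidefinite matrix), `c empty = 1`,
  `G u = det (diag (exp u) + N) = sum_A c A exp (sum_{i not in A} u i) > 0`.  For `l + l' = 1`, `l, l' >= 0`, points `u, v`:
  `G (l u + l' v) / (G u ^ l G v ^ l') = sum_A c A (e^(a A) / G u) ^ l (e^(b A) / G v) ^ l'
  <= sum_A c A (l e^(a A) / G u + l' e^(b A) / G v) = 1`
  (`Real.geom_mean_le_arith_mean2_weighted`), take logarithms.
-/

namespace Pool.Agent.TT

open Matrix Module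

/-- Expansion in principal minors. -/
theorem det_diagonal_add {n : ℕ} (D : Fin n → ℝ) (N : Matrix (Fin n) (Fin n) ℝ) :
    (diagonal D + N).det = ∑ A : Finset (Fin n), (∏ i ∈ Aᶜ, D i) *
      (N.submatrix (Subtype.val : A → Fin n) (Subtype.val : A → Fin n)).det := by
  classical
  have h0 : (diagonal D + N).det =
      (detRowAlternating : (Fin n → ℝ) [⋀^Fin n]→ₗ[ℝ] ℝ) ((fun i => N i) + fun i => diagonal D i) := by
    rw [add_comm]
    rfl
  rw [h0, AlternatingMap.map_add_univ]
  refine Finset.sum_congr rfl fun s _ => ?_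
  have h1 : s.piecewise (fun i => N i) (fun i => diagonal D i) =
      fun i => (if i ∈ s then (1 : ℝ) else D i) •
        s.piecewise N.row (1 : Matrix (Fin n) (Fin n) ℝ).row i := by
    funext i j
    by_cases h : i ∈ s
    · simp [Finset.piecewise, h]
    · simp only [Finset.piecewise, h, if_false, Pi.smul_apply, smul_eq_mul, Matrix.row]
      by_cases hij : i = j
      · subst hij; simp
      · simp [hij]
  rw [h1, AlternatingMap.map_smul_univ, smul_eq_mul]
  have h2 := det_piecewise_one_eq_submatrix_det N s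
  have h3 : (detRowAlternating : (Fin n → ℝ) [⋀^Fin n]→ₗ[ℝ] ℝ)
      (fun i => s.piecewise N.row (1 : Matrix (Fin n) (Fin n) ℝ).row i) =
      det (Matrix.of <| s.piecewise N.row (1 : Matrix (Fin n) (Fin n) ℝ).row) := rfl
  rw [h3, h2]
  congr 1
  rw [← Finset.prod_mul_prod_compl s fun i => if i ∈ s then (1 : ℝ) else D i]
  rw [Finset.prod_congr rfl (g := fun _ => (1 : ℝ)) (fun i hi => if_pos hi), Finset.prod_const_one,
    one_mul]
  exact Finset.prod_congr rfl fun i hi => if_neg (Finset.mem_compl.1 hi)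

/-- `log det (diag (exp u) + N)` is convex in `u`. -/
theorem convexOn_log_det {n : ℕ} {N : Matrix (Fin n) (Fin n) ℝ} (hN : N.PosSemidef) :
    ConvexOn ℝ Set.univ (fun u : Fin n → ℝ =>
      Real.log (diagonal (fun i => Real.exp (u i)) + N).det) := by
  classical
  set c : Finset (Fin n) → ℝ := fun A =>
    (N.submatrix (Subtype.val : A → Fin n) (Subtype.val : A → Fin n)).det with hc
  have hc0 : ∀ A, 0 ≤ c A := fun A => (hN.submatrix _).det_nonneg
  have hce : c ∅ = 1 := by
    rw [hc]
    exact Matrix.det_isEmpty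
  have hG : ∀ u : Fin n → ℝ, (diagonal (fun i => Real.exp (u i)) + N).det =
      ∑ A : Finset (Fin n), c A * Real.exp (∑ i ∈ Aᶜ, u i) := by
    intro u
    rw [det_diagonal_add]
    refine Finset.sum_congr rfl fun A _ => ?_
    rw [Real.exp_sum, mul_comm]
  set G : (Fin n → ℝ) → ℝ := fun u => ∑ A : Finset (Fin n), c A * Real.exp (∑ i ∈ Aᶜ, u i) with hGd
  have hGpos : ∀ u, 0 < G u := by
    intro u
    have h1 : c ∅ * Real.exp (∑ i ∈ (∅ : Finset (Fin n))ᶜ, u i) ≤ G u :=
      Finset.single_le_sum (f := fun A : Finset (Fin n) => c A * Real.exp (∑ i ∈ Aᶜ, u i))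
        (fun A _ => mul_nonneg (hc0 A) (Real.exp_pos _).le) (Finset.mem_univ ∅)
    refine lt_of_lt_of_le ?_ h1
    rw [hce, one_mul]
    exact Real.exp_pos _
  have hfun : (fun u : Fin n → ℝ => Real.log (diagonal (fun i => Real.exp (u i)) + N).det) =
      fun u => Real.log (G u) := by
    funext u
    rw [hG u]
  rw [hfun]
  refine ⟨convex_univ, fun u _ v _ l l' hl hl' hll => ?_⟩
  have hu := hGpos u
  have hv := hGpos v
  have key : G (l • u + l' • v) ≤ G u ^ l * G v ^ l' := by
    have hpos : 0 < G u ^ l * G v ^ l' :=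
      mul_pos (Real.rpow_pos_of_pos hu _) (Real.rpow_pos_of_pos hv _)
    rw [← div_le_one hpos]
    have hterm : ∀ A : Finset (Fin n),
        c A * Real.exp (∑ i ∈ Aᶜ, (l • u + l' • v) i) / (G u ^ l * G v ^ l') ≤
        l * (c A * Real.exp (∑ i ∈ Aᶜ, u i) / G u) + l' * (c A * Real.exp (∑ i ∈ Aᶜ, v i) / G v) := by
      intro A
      have h1 := Real.geom_mean_le_arith_mean2_weighted hl hl'
        (div_pos (Real.exp_pos (∑ i ∈ Aᶜ, u i)) hu).le (div_pos (Real.exp_pos (∑ i ∈ Aᶜ, v i)) hv).le hll
      rw [Real.div_rpow (Real.exp_pos _).le hu.le, Real.div_rpow (Real.exp_pos _).le hv.le,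
        ← Real.exp_mul, ← Real.exp_mul, div_mul_div_comm, ← Real.exp_add] at h1
      have e : (∑ i ∈ Aᶜ, u i) * l + (∑ i ∈ Aᶜ, v i) * l' = ∑ i ∈ Aᶜ, (l • u + l' • v) i := by
        simp only [Pi.add_apply, Pi.smul_apply, smul_eq_mul]
        rw [Finset.sum_add_distrib, ← Finset.mul_sum, ← Finset.mul_sum]
        ring
      rw [e] at h1
      have h2 := mul_le_mul_of_nonneg_left h1 (hc0 A)
      calc c A * Real.exp (∑ i ∈ Aᶜ, (l • u + l' • v) i) / (G u ^ l * G v ^ l')
          = c A * (Real.exp (∑ i ∈ Aᶜ, (l • u + l' • v) i) / (G u ^ l * G v ^ l')) := by ring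
        _ ≤ _ := h2
        _ = _ := by ring
    have hsum : G (l • u + l' • v) / (G u ^ l * G v ^ l') =
        ∑ A : Finset (Fin n), c A * Real.exp (∑ i ∈ Aᶜ, (l • u + l' • v) i) /
          (G u ^ l * G v ^ l') := by
      rw [hGd]
      dsimp only
      rw [Finset.sum_div]
    rw [hsum]
    refine (Finset.sum_le_sum fun A _ => hterm A).trans ?_
    rw [Finset.sum_add_distrib, ← Finset.mul_sum, ← Finset.mul_sum, ← Finset.sum_div,
      ← Finset.sum_div]
    change l * (G u / G u) + l' * (G v / G v) ≤ 1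
    rw [div_self hu.ne', div_self hv.ne']
    linarith
  have h3 := Real.log_le_log (hGpos _) key
  rw [Real.log_mul (Real.rpow_pos_of_pos hu _).ne' (Real.rpow_pos_of_pos hv _).ne',
    Real.log_rpow hu, Real.log_rpow hv] at h3
  simpa only [smul_eq_mul] using h3

end Pool.Agent.TT
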