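import Pool.Agent.Helper88.TT.LogDet
import Pool.Agent.Helper88.SA.CX
import Mathlib.Topology.Sion

/-!
# The saddle point of `log det (diag (exp u) + N) - sum u + sum exp u`

See `/team-store/h88_TT_README.md`, section 2.
-/

namespace Pool.Agent.TT

open Matrix Module Filter Topology

/-- Carathéodory: the convex hull as the image of a compact set. -/
theorem sa_convexHull_eq {E : Type*} [AddCommGroup E] [Module ℝ E] [FiniteDimensional ℝ E]
    (s : Set E) :
    convexHull ℝ s =
      (fun q : (Fin (finrank ℝ E + 1) → ℝ) × (Fin (finrank ℝ E + 1) → E) => ∑ i, q.1 i • q.2 i) ''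
      (stdSimplex ℝ (Fin (finrank ℝ E + 1)) ×ˢ (Set.univ.pi fun _ => s)) := by
  set d := finrank ℝ E + 1 with hd
  apply Set.Subset.antisymm
  · intro x hx
    obtain ⟨κ, hκ, z, w, hz, hai, hw0, hw1, hx⟩ := eq_pos_convex_span_of_mem_convexHull hx
    have hcard : Fintype.card κ ≤ Fintype.card (Fin d) := by
      have h1 := hai.card_le_finrank_succ
      have h2 : Module.finrank ℝ (vectorSpan ℝ (Set.range z)) ≤ Module.finrank ℝ E :=
        Submodule.finrank_le _
      rw [Fintype.card_fin]
      omega
    obtain ⟨e⟩ := Function.Embedding.nonempty_of_card_le hcard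
    have hne : Nonempty κ := by
      by_contra h
      rw [not_nonempty_iff] at h
      rw [Fintype.sum_empty] at hw1
      exact zero_ne_one hw1
    obtain ⟨i₀⟩ := hne
    have hew : ∀ i, Function.extend e w 0 (e i) = w i := fun i => e.injective.extend_apply _ _ _
    have hez : ∀ i, Function.extend e z (fun _ => z i₀) (e i) = z i :=
      fun i => e.injective.extend_apply _ _ _
    have hw' : ∀ j ∉ Set.range e, Function.extend e w 0 j = 0 := fun j hj =>
      Function.extend_apply' _ _ _ (fun ⟨i, hi⟩ => hj ⟨i, hi⟩)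
    refine ⟨(Function.extend e w 0, Function.extend e z (fun _ => z i₀)), ⟨⟨?_, ?_⟩, ?_⟩, ?_⟩
    · intro j
      by_cases hj : j ∈ Set.range e
      · obtain ⟨i, rfl⟩ := hj
        change 0 ≤ Function.extend e w 0 (e i)
        rw [hew]
        exact (hw0 i).le
      · exact (hw' j hj).ge
    · change ∑ j, Function.extend e w 0 j = 1
      rw [← hw1]
      exact (Fintype.sum_of_injective e e.injective w _ hw' (fun i => (hew i).symm)).symm
    · intro j _
      change Function.extend e z (fun _ => z i₀) j ∈ s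
      by_cases hj : j ∈ Set.range e
      · obtain ⟨i, rfl⟩ := hj
        rw [hez]
        exact hz ⟨i, rfl⟩
      · rw [Function.extend_apply' _ _ _ (fun ⟨i, hi⟩ => hj ⟨i, hi⟩)]
        exact hz ⟨i₀, rfl⟩
    · beta_reduce
      rw [← hx]
      refine (Fintype.sum_of_injective e e.injective _ _ (fun j hj => ?_) (fun i => ?_)).symm
      · dsimp only
        rw [hw' j hj, zero_smul]
      · dsimp only
        rw [hew, hez]
  · rintro x ⟨⟨w, z⟩, ⟨⟨hw0, hw1⟩, hz⟩, rfl⟩
    exact (convex_convexHull ℝ s).sum_mem (fun i _ => hw0 i) hw1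
      (fun i _ => subset_convexHull ℝ s (hz i (Set.mem_univ i)))

variable {n : ℕ}

/-- The matrices `∑ p b t b (t b)ᵀ`. -/
def sv (t : Fin n → ℝ) : Matrix (Fin n) (Fin n) ℝ := vecMulVec t t

theorem sv_posSemidef (t : Fin n → ℝ) : (sv t).PosSemidef := by
  have h := posSemidef_vecMulVec_self_star t
  simpa [sv] using h

theorem hull_posSemidef {B : Set (Fin n → ℝ)} {N : Matrix (Fin n) (Fin n) ℝ}
    (hN : N ∈ convexHull ℝ (sv '' B)) : N.PosSemidef := by
  have hconv : Convex ℝ {M : Matrix (Fin n) (Fin n) ℝ | M.PosSemidef} := by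
    intro M hM M' hM' a b ha hb _
    exact (hM.smul ha).add (hM'.smul hb)
  refine convexHull_min ?_ hconv hN
  rintro _ ⟨t, _, rfl⟩
  exact sv_posSemidef t

theorem isCompact_hull {B : Set (Fin n → ℝ)} (hc : IsCompact B) :
    IsCompact (convexHull ℝ (sv '' B)) := by
  have hs : IsCompact (sv '' B) := by
    apply hc.image
    unfold sv
    exact Continuous.matrix_vecMulVec continuous_id continuous_id
  rw [sa_convexHull_eq]
  exact ((isCompact_stdSimplex ℝ _).prod (isCompact_univ_pi fun _ => hs)).image (by fun_prop)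

theorem hull_gsum {B : Set (Fin n → ℝ)} {N : Matrix (Fin n) (Fin n) ℝ}
    (hN : N ∈ convexHull ℝ (sv '' B)) :
    ∃ (m : ℕ) (p : Fin m → ℝ) (t : Fin m → Fin n → ℝ), (∀ b, 0 ≤ p b) ∧ ∑ b, p b = 1 ∧
      (∀ b, t b ∈ B) ∧ N = gsum p t := by
  rw [sa_convexHull_eq] at hN
  obtain ⟨⟨w, z⟩, ⟨⟨hw0, hw1⟩, hz⟩, rfl⟩ := hN
  have hz' : ∀ i, ∃ t ∈ B, sv t = z i := fun i => hz i (Set.mem_univ i)
  choose t ht ht2 using hz'
  refine ⟨_, w, t, hw0, hw1, ht, ?_⟩
  unfold gsum
  refine Finset.sum_congr rfl fun i _ => ?_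
  change w i • z i = _
  rw [← ht2 i]
  rfl

/-- The functional. -/
noncomputable def sf (u : Fin n → ℝ) (N : Matrix (Fin n) (Fin n) ℝ) : ℝ :=
  Real.log (diagonal (fun i => Real.exp (u i)) + N).det - ∑ i, u i + ∑ i, Real.exp (u i)

theorem sa_posDef {u : Fin n → ℝ} {N : Matrix (Fin n) (Fin n) ℝ} (hN : N.PosSemidef) :
    (diagonal (fun i => Real.exp (u i)) + N).PosDef :=
  (PosDef.diagonal fun i => Real.exp_pos (u i)).add_posSemidef hN

theorem sf_continuous_left {N : Matrix (Fin n) (Fin n) ℝ} (hN : N.PosSemidef) :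
    Continuous (fun u : Fin n → ℝ => sf u N) := by
  unfold sf
  have h1 : Continuous (fun u : Fin n → ℝ => (diagonal (fun i => Real.exp (u i)) + N).det) := by
    apply Continuous.matrix_det
    apply Continuous.add _ continuous_const
    apply Continuous.matrix_diagonal
    fun_prop
  exact ((h1.log fun u => (sa_posDef hN).det_pos.ne').sub (by fun_prop)).add (by fun_prop)

theorem sf_continuousOn_right {B : Set (Fin n → ℝ)} (u : Fin n → ℝ) :
    ContinuousOn (fun N : Matrix (Fin n) (Fin n) ℝ => sf u N) (convexHull ℝ (sv '' B)) := by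
  unfold sf
  have h1 : Continuous (fun N : Matrix (Fin n) (Fin n) ℝ =>
      (diagonal (fun i => Real.exp (u i)) + N).det) := by
    apply Continuous.matrix_det
    exact continuous_const.add continuous_id
  have h2 : ContinuousOn (fun N : Matrix (Fin n) (Fin n) ℝ =>
      Real.log (diagonal (fun i => Real.exp (u i)) + N).det) (convexHull ℝ (sv '' B)) :=
    h1.continuousOn.log fun N hN => (sa_posDef (hull_posSemidef hN)).det_pos.ne'
  exact (h2.sub continuousOn_const).add continuousOn_const

theorem sf_convex {N : Matrix (Fin n) (Fin n) ℝ} (hN : N.PosSemidef) :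
    ConvexOn ℝ Set.univ (fun u : Fin n → ℝ => sf u N) := by
  have h1 := convexOn_log_det hN
  refine ⟨convex_univ, fun u _ v _ a b ha hb hab => ?_⟩
  have h2 := h1.2 (Set.mem_univ u) (Set.mem_univ v) ha hb hab
  simp only [smul_eq_mul] at h2 ⊢
  unfold sf
  have h3 : ∑ i, (a • u + b • v) i = a * ∑ i, u i + b * ∑ i, v i := by
    simp only [Pi.add_apply, Pi.smul_apply, smul_eq_mul]
    rw [Finset.sum_add_distrib, Finset.mul_sum, Finset.mul_sum]
  have h4 : ∑ i, Real.exp ((a • u + b • v) i) ≤
      a * ∑ i, Real.exp (u i) + b * ∑ i, Real.exp (v i) := by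
    rw [Finset.mul_sum, Finset.mul_sum, ← Finset.sum_add_distrib]
    refine Finset.sum_le_sum fun i _ => ?_
    have := convexOn_exp.2 (Set.mem_univ (u i)) (Set.mem_univ (v i)) ha hb hab
    simpa [smul_eq_mul] using this
  rw [h3]
  linarith

theorem sf_concave {B : Set (Fin n → ℝ)} (u : Fin n → ℝ) :
    ConcaveOn ℝ (convexHull ℝ (sv '' B)) (fun N : Matrix (Fin n) (Fin n) ℝ => sf u N) := by
  refine ⟨convex_convexHull ℝ _, fun N hN M hM a b ha hb hab => ?_⟩
  have hNp := sa_posDef (u := u) (hull_posSemidef hN)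
  have hMp := sa_posDef (u := u) (hull_posSemidef hM)
  have hC : a • N + b • M ∈ convexHull ℝ (sv '' B) := convex_convexHull ℝ _ hN hM ha hb hab
  have hCp := sa_posDef (u := u) (hull_posSemidef hC)
  have h1 := log_det_le hNp hCp
  have h2 := log_det_le hMp hCp
  set C := diagonal (fun i => Real.exp (u i)) + (a • N + b • M) with hCd
  simp only [smul_eq_mul]
  unfold sf
  rw [← hCd]
  have h3 : a * (C⁻¹ * (diagonal (fun i => Real.exp (u i)) + N - C)).trace +
      b * (C⁻¹ * (diagonal (fun i => Real.exp (u i)) + M - C)).trace = 0 := by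
    have e : ∀ (c : ℝ) (X : Matrix (Fin n) (Fin n) ℝ), c * (C⁻¹ * X).trace = (C⁻¹ * (c • X)).trace := by
      intro c X
      rw [Matrix.mul_smul, trace_smul, smul_eq_mul]
    rw [e, e, ← trace_add, ← Matrix.mul_add]
    have h4 : a • (diagonal (fun i => Real.exp (u i)) + N - C) +
        b • (diagonal (fun i => Real.exp (u i)) + M - C) = 0 := by
      have hb' : b = 1 - a := by linarith
      rw [hCd, hb']
      module
    rw [h4, Matrix.mul_zero, trace_zero]
  have h5 := mul_le_mul_of_nonneg_left h1 ha
  have h6 := mul_le_mul_of_nonneg_left h2 hb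
  have hb' : b = 1 - a := by linarith
  subst hb'
  nlinarith

theorem sa_lim_right {c h0 : ℝ} (hh : 0 < h0) (hc : 0 < c)
    (h : ∀ x : ℝ, 0 < x → x ≤ h0 → x ≤ c * (Real.exp x - 1)) : 1 ≤ c := by
  by_contra hcon
  push Not at hcon
  set x := min h0 (min 1 ((1 - c) / (2 * c))) with hx
  have hx0 : 0 < x := lt_min hh (lt_min one_pos (div_pos (by linarith) (by linarith)))
  have h1 := h x hx0 (min_le_left _ _)
  have hx1 : x ≤ 1 := (min_le_right _ _).trans (min_le_left _ _)
  have hx2 : x ≤ (1 - c) / (2 * c) := (min_le_right _ _).trans (min_le_right _ _)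
  have h2 : Real.exp x - 1 ≤ x + x ^ 2 := by
    have := Real.abs_exp_sub_one_sub_id_le (x := x) (by rw [abs_of_pos hx0]; exact hx1)
    have := (abs_le.1 this).2
    linarith
  rw [le_div_iff₀ (by linarith)] at hx2
  have h3 : c * (Real.exp x - 1) ≤ c * (x + x ^ 2) := mul_le_mul_of_nonneg_left h2 hc.le
  nlinarith

theorem sa_lim_left {c h0 : ℝ} (hh : 0 < h0) (hc : 0 < c)
    (h : ∀ x : ℝ, 0 < x → x ≤ h0 → c * (1 - Real.exp (-x)) ≤ x) : c ≤ 1 := by
  by_contra hcon
  push Not at hcon
  set x := min h0 (min 1 ((c - 1) / (2 * c))) with hx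
  have hx0 : 0 < x := lt_min hh (lt_min one_pos (div_pos (by linarith) (by linarith)))
  have h1 := h x hx0 (min_le_left _ _)
  have hx1 : x ≤ 1 := (min_le_right _ _).trans (min_le_left _ _)
  have hx2 : x ≤ (c - 1) / (2 * c) := (min_le_right _ _).trans (min_le_right _ _)
  have h2 : x - x ^ 2 ≤ 1 - Real.exp (-x) := by
    have := Real.abs_exp_sub_one_sub_id_le (x := -x) (by rw [abs_neg, abs_of_pos hx0]; exact hx1)
    have := (abs_le.1 this).2
    nlinarith
  rw [le_div_iff₀ (by linarith)] at hx2
  have h3 : c * (x - x ^ 2) ≤ c * (1 - Real.exp (-x)) := mul_le_mul_of_nonneg_left h2 hc.le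
  nlinarith

theorem sa_inv_continuousAt {A M : Matrix (Fin n) (Fin n) ℝ} (hA : A.PosDef) :
    ContinuousAt (fun ε : ℝ => ((A + ε • M)⁻¹ * M).trace) 0 := by
  have h1 : Continuous (fun ε : ℝ => A + ε • M) := by fun_prop
  have h2 : ContinuousAt (fun ε : ℝ => (A + ε • M)⁻¹) 0 := by
    have h3 : (fun ε : ℝ => (A + ε • M)⁻¹) =
        fun ε : ℝ => ((A + ε • M).det)⁻¹ • (A + ε • M).adjugate := by
      funext ε
      rw [Matrix.inv_def, Ring.inverse_eq_inv']
    rw [h3]
    have h4 : ContinuousAt (fun ε : ℝ => (A + ε • M).det) 0 := h1.matrix_det.continuousAt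
    refine ContinuousAt.smul (h4.inv₀ ?_) h1.matrix_adjugate.continuousAt
    rw [zero_smul, add_zero]
    exact hA.det_pos.ne'
  have h5 : Continuous (fun X : Matrix (Fin n) (Fin n) ℝ => (X * M).trace) := by
    apply Continuous.matrix_trace
    exact Continuous.matrix_mul continuous_id continuous_const
  exact h5.continuousAt.comp h2

/-- Existence of the saddle point, with the conditions of first order. -/
theorem exists_saddle {B : Set (Fin n → ℝ)} (hc : IsCompact B) (hne : B.Nonempty) {δ : ℝ}
    (hδ : 0 < δ) (hδ1 : δ ≤ 1) :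
    ∃ (m : ℕ) (p : Fin m → ℝ) (t : Fin m → Fin n → ℝ) (D : Fin n → ℝ),
      (∀ b, 0 ≤ p b) ∧ ∑ b, p b = 1 ∧ (∀ b, t b ∈ B) ∧ (∀ i, δ ≤ D i) ∧
      (∀ z ∈ B, z ⬝ᵥ ((diagonal D + gsum p t)⁻¹ *ᵥ z) ≤
        (gsum p t * (diagonal D + gsum p t)⁻¹).trace) ∧
      (∀ i, 1 - D i * (diagonal D + gsum p t)⁻¹ i i ≤ D i) ∧
      (∀ i, δ < D i → 1 - D i * (diagonal D + gsum p t)⁻¹ i i = D i) := by
  set X : Set (Fin n → ℝ) := Set.Icc (fun _ => Real.log δ) 0 with hX
  set Y : Set (Matrix (Fin n) (Fin n) ℝ) := convexHull ℝ (sv '' B) with hY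
  have hlδ : Real.log δ ≤ 0 := Real.log_nonpos hδ.le hδ1
  have hXne : X.Nonempty := ⟨0, fun _ => hlδ, fun _ => le_rfl⟩
  have hYne : Y.Nonempty := by
    obtain ⟨t, ht⟩ := hne
    exact ⟨sv t, subset_convexHull ℝ _ ⟨t, ht, rfl⟩⟩
  obtain ⟨u, hu, N, hN, hsad⟩ := Sion.exists_isSaddlePointOn (X := X) (Y := Y) (f := sf)
    hXne (convex_Icc _ _) isCompact_Icc
    (fun N hN => (sf_continuous_left (hull_posSemidef hN)).lowerSemicontinuous.lowerSemicontinuousOn X)
    (fun N hN => ((sf_convex (hull_posSemidef hN)).subset (Set.subset_univ X)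
      (convex_Icc _ _)).quasiconvexOn)
    (convex_convexHull ℝ _) hYne (isCompact_hull hc)
    (fun u _ => (sf_continuousOn_right u).upperSemicontinuousOn)
    (fun u _ => (sf_concave u).quasiconcaveOn)
  have hNp := hull_posSemidef hN
  set D : Fin n → ℝ := fun i => Real.exp (u i) with hD
  have hA : (diagonal D + N).PosDef := sa_posDef hNp
  have hSii : ∀ i, 0 < (diagonal D + N)⁻¹ i i := fun i => hA.inv.diag_pos
  obtain ⟨m, p, t, hp, hp1, ht, hNg⟩ := hull_gsum hN
  -- the first order condition for the points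
  have key1 : ∀ z ∈ B, z ⬝ᵥ ((diagonal D + N)⁻¹ *ᵥ z) ≤ (N * (diagonal D + N)⁻¹).trace := by
    intro z hz
    set M : Matrix (Fin n) (Fin n) ℝ := sv z - N with hM
    have h1 : ∀ ε : ℝ, 0 < ε → ε ≤ 1 → ((diagonal D + N + ε • M)⁻¹ * M).trace ≤ 0 := by
      intro ε hε hε1
      have hmem : N + ε • M ∈ Y := by
        have h2 : N + ε • M = (1 - ε) • N + ε • sv z := by rw [hM]; module
        rw [h2]
        exact convex_convexHull ℝ _ hN (subset_convexHull ℝ _ ⟨z, hz, rfl⟩) (by linarith) hε.le
          (by ring)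
      have hPε : (diagonal D + (N + ε • M)).PosDef := sa_posDef (hull_posSemidef hmem)
      have h3 := hsad u hu (N + ε • M) hmem
      have h4 := log_det_le hA hPε
      unfold sf at h3
      have h5 : (diagonal D + (N + ε • M))⁻¹ * (diagonal D + N - (diagonal D + (N + ε • M))) =
          -(ε • ((diagonal D + N + ε • M)⁻¹ * M)) := by
        have e1 : diagonal D + N - (diagonal D + (N + ε • M)) = -(ε • M) := by module
        rw [e1, Matrix.mul_neg, Matrix.mul_smul, ← add_assoc]
      rw [h5, trace_neg, trace_smul, smul_eq_mul] at h4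
      have h6 : ε * ((diagonal D + N + ε • M)⁻¹ * M).trace ≤ 0 := by linarith
      by_contra hcon
      push Not at hcon
      nlinarith [mul_pos hε hcon]
    have h2 : ((diagonal D + N)⁻¹ * M).trace ≤ 0 := by
      have hcont := sa_inv_continuousAt (M := M) hA
      have hlim : Tendsto (fun ε : ℝ => ((diagonal D + N + ε • M)⁻¹ * M).trace) (𝓝[>] 0)
          (𝓝 (((diagonal D + N)⁻¹ * M).trace)) := by
        have h3 := hcont.tendsto.mono_left (nhdsWithin_le_nhds (s := Set.Ioi 0))
        simpa using h3
      refine le_of_tendsto hlim ?_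
      filter_upwards [Ioc_mem_nhdsGT (zero_lt_one' ℝ)] with ε hε
      exact h1 ε hε.1 hε.2
    rw [hM, Matrix.mul_sub, trace_sub] at h2
    have h3 : ((diagonal D + N)⁻¹ * sv z).trace = z ⬝ᵥ ((diagonal D + N)⁻¹ *ᵥ z) := by
      unfold sv
      rw [Matrix.mul_vecMulVec, trace_vecMulVec, dotProduct_comm]
    rw [h3, trace_mul_comm _ N] at h2
    linarith
  -- the first order condition for the weights
  have key2 : ∀ (i : Fin n) (h : ℝ), Function.update u i (u i + h) ∈ X →
      0 ≤ D i * (Real.exp h - 1) * (1 + (diagonal D + N)⁻¹ i i) - h := by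
    intro i h hmem
    have h1 := hsad _ hmem N hN
    set u' := Function.update u i (u i + h) with hu'
    set c := D i * (Real.exp h - 1) with hcd
    have hA' : (diagonal (fun j => Real.exp (u' j)) + N).PosDef := sa_posDef hNp
    have h2 := log_det_le hA' hA
    have h3 : diagonal (fun j => Real.exp (u' j)) + N - (diagonal D + N) =
        diagonal (Pi.single i c) := by
      rw [add_sub_add_right_eq_sub, diagonal_sub]
      congr 1
      funext j
      by_cases hj : j = i
      · subst hj
        rw [hu', Function.update_self, Pi.single_eq_same, hD, hcd, Real.exp_add]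
        simp only [hD]
        ring
      · rw [hu', Function.update_of_ne hj, Pi.single_eq_of_ne hj, hD]
        simp
    have h4 : ((diagonal D + N)⁻¹ * diagonal (Pi.single i c)).trace =
        c * (diagonal D + N)⁻¹ i i := by
      rw [Matrix.trace, Finset.sum_eq_single i]
      · rw [diag_apply, mul_diagonal, Pi.single_eq_same, mul_comm]
      · intro j _ hj
        rw [diag_apply, mul_diagonal, Pi.single_eq_of_ne hj, mul_zero]
      · intro h; exact absurd (Finset.mem_univ i) h
    rw [h3, h4] at h2
    unfold sf at h1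
    have h5 : ∑ j, u' j = ∑ j, u j + h := by
      rw [hu', Finset.sum_update_of_mem (Finset.mem_univ i),
        ← Finset.add_sum_erase Finset.univ u (Finset.mem_univ i), Finset.sdiff_singleton_eq_erase]
      ring
    have h6 : ∑ j, Real.exp (u' j) = ∑ j, Real.exp (u j) + c := by
      have h7 : ∀ j, Real.exp (u' j) = D j + (Pi.single i c : Fin n → ℝ) j := by
        intro j
        by_cases hj : j = i
        · subst hj
          rw [hu', Function.update_self, Pi.single_eq_same, hcd, Real.exp_add]
          simp only [hD]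
          ring
        · rw [hu', Function.update_of_ne hj, Pi.single_eq_of_ne hj, hD]
          simp
      rw [Finset.sum_congr rfl fun j _ => h7 j, Finset.sum_add_distrib, Finset.sum_pi_single',
        if_pos (Finset.mem_univ i)]
    rw [h5, h6] at h1
    have h7 : c * (1 + (diagonal D + N)⁻¹ i i) = c + c * (diagonal D + N)⁻¹ i i := by ring
    rw [h7]
    linarith
  have hDlow : ∀ i, δ ≤ D i := by
    intro i
    have h1 := hu.1 i
    have h2 := Real.exp_le_exp.2 h1
    rwa [Real.exp_log hδ] at h2
  have key3 : ∀ i, 1 - D i * (diagonal D + N)⁻¹ i i ≤ D i := by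
    intro i
    have hDi : 0 < D i := Real.exp_pos _
    rcases (hu.2 i).eq_or_lt with h0 | h0
    · have : D i = 1 := by
        rw [hD]
        simp only
        rw [h0]
        exact Real.exp_zero
      rw [this]
      linarith [hSii i]
    · have h1 : 1 ≤ D i * (1 + (diagonal D + N)⁻¹ i i) := by
        simp only [Pi.zero_apply] at h0
        refine sa_lim_right (h0 := -u i) (by linarith) (mul_pos hDi (by linarith [hSii i])) ?_
        intro x hx hx2
        have h2 := key2 i x ⟨fun j => ?_, fun j => ?_⟩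
        · linarith
        · by_cases hj : j = i
          · subst hj
            rw [Function.update_self]
            linarith [hu.1 j]
          · rw [Function.update_of_ne hj]
            exact hu.1 j
        · by_cases hj : j = i
          · subst hj
            rw [Function.update_self]
            simp only [Pi.zero_apply]
            linarith
          · rw [Function.update_of_ne hj]
            exact hu.2 j
      linarith
  have key4 : ∀ i, δ < D i → 1 - D i * (diagonal D + N)⁻¹ i i = D i := by
    intro i hi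
    have hDi : 0 < D i := Real.exp_pos _
    refine le_antisymm (key3 i) ?_
    have hui : Real.log δ < u i := by
      rw [← Real.exp_lt_exp, Real.exp_log hδ]
      exact hi
    have h1 : D i * (1 + (diagonal D + N)⁻¹ i i) ≤ 1 := by
      refine sa_lim_left (h0 := u i - Real.log δ) (by linarith)
        (mul_pos hDi (by linarith [hSii i])) ?_
      intro x hx hx2
      have h2 := key2 i (-x) ⟨fun j => ?_, fun j => ?_⟩
      · linarith
      · by_cases hj : j = i
        · subst hj
          rw [Function.update_self]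
          linarith
        · rw [Function.update_of_ne hj]
          exact hu.1 j
      · by_cases hj : j = i
        · subst hj
          rw [Function.update_self]
          have := hu.2 j
          simp only [Pi.zero_apply] at this ⊢
          linarith
        · rw [Function.update_of_ne hj]
          exact hu.2 j
    linarith
  refine ⟨m, p, t, D, hp, hp1, ht, hDlow, ?_, ?_, ?_⟩
  · rw [← hNg]; exact key1
  · rw [← hNg]; exact key3
  · rw [← hNg]; exact key4

end Pool.Agent.TT
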